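import Mathlib
import Pool.Agent.MP_8db26a_an.Main54

set_option autoImplicit false

/-! Every superattracting skew germ of the plane of the given shape is analytically conjugate to an
analytic normal form. -/

namespace Pool.Agent.Results.MP_8db26a_an.AnalyticNormalForm

open Filter Topology

/-- The germ with first component `z ^ d` and second component `w ^ c + z * h (z, w)`. -/
def skewGerm (d c : ℕ) (h : ℂ × ℂ → ℂ) (p : ℂ × ℂ) : ℂ × ℂ :=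
  (p.1 ^ d, p.2 ^ c + p.1 * h p)

/-- The map with first component `z ^ d` and second component
`w ^ c + η_{c-1}(z) w ^ (c-1) + ... + η_1(z) w + η_0(z)`. -/
def normalForm (d c : ℕ) (η : Fin c → ℂ → ℂ) (p : ℂ × ℂ) : ℂ × ℂ :=
  (p.1 ^ d, p.2 ^ c + ∑ j : Fin c, η j p.1 * p.2 ^ (j : ℕ))

/-- `Φ` defines a germ at the origin of a biholomorphism of the plane fixing the origin: it is
analytic at the origin, fixes it, and has a local inverse with the same properties. -/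
def IsBiholGerm (Φ : ℂ × ℂ → ℂ × ℂ) : Prop :=
  AnalyticAt ℂ Φ 0 ∧ Φ 0 = 0 ∧
    ∃ Ψ : ℂ × ℂ → ℂ × ℂ, AnalyticAt ℂ Ψ 0 ∧ Ψ 0 = 0 ∧
      (∀ᶠ p in 𝓝 (0 : ℂ × ℂ), Ψ (Φ p) = p) ∧ (∀ᶠ p in 𝓝 (0 : ℂ × ℂ), Φ (Ψ p) = p)

theorem result : ∀ d c : ℕ, 2 ≤ c → c < d →
    ∀ h : ℂ × ℂ → ℂ, AnalyticAt ℂ h 0 → h 0 = 0 →
      ∃ (Φ : ℂ × ℂ → ℂ × ℂ) (η : Fin c → ℂ → ℂ),
        IsBiholGerm Φ ∧ (∀ j : Fin c, AnalyticAt ℂ (η j) 0 ∧ η j 0 = 0) ∧
          ∀ᶠ p in 𝓝 (0 : ℂ × ℂ), Φ (skewGerm d c h p) = normalForm d c η (Φ p) := by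
  intro d c hc hcd h hh _
  obtain ⟨G, η, hG, hη, hconj⟩ := Pool.Agent.MP_8db26a_an.Skew54.main hc (by omega : 2 ≤ d) hh
  refine ⟨Pool.Agent.MP_8db26a_an.Skew54.phiMap G, η, ?_, hη, hconj⟩
  refine ⟨Pool.Agent.MP_8db26a_an.Skew54.phiMap_analytic hG, ?_,
    Pool.Agent.MP_8db26a_an.Skew54.phiMap_inverse hG⟩
  unfold Pool.Agent.MP_8db26a_an.Skew54.phiMap
  simp

end Pool.Agent.Results.MP_8db26a_an.AnalyticNormalForm
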